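import Pool.Agent.H567.PP.Stm

/-!
PP-13: the sums over primes, from the general form `S_PG` and the bounds for the complete sums.
-/

set_option autoImplicit false

namespace Pool.Agent.H120.PP

open Finset Filter Topology
open Pool.Agent.H567.PP
open Pool.Agent.helper24_UT (tw CM TB S_ZSX S_PG)
open Pool.Agent.H376R2.MR (er)

theorem tw_mul_tw (t u x : ℝ) : tw t x * tw u x = tw (t + u) x := by
  unfold tw er
  rw [← Complex.exp_add]
  congr 1
  push_cast
  ring

theorem tw_mul {t x y : ℝ} (hx : x ≠ 0) (hy : y ≠ 0) : tw t (x * y) = tw t x * tw t y := by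
  unfold tw er
  rw [← Complex.exp_add, Real.log_mul hx hy]
  congr 1
  push_cast
  ring

theorem tw_one (t : ℝ) : tw t 1 = 1 := by
  unfold tw er
  simp

theorem norm_tw (t x : ℝ) : ‖tw t x‖ = 1 := by
  unfold tw er
  exact Complex.norm_exp_ofReal_mul_I _

theorem cm_twist {q : ℕ} (χ : DirichletCharacter ℂ q) (t : ℝ) :
    CM (fun n : ℕ => χ (n : ZMod q) * tw t n) where
  one := by
    simp only [Nat.cast_one]
    rw [map_one, tw_one, one_mul]
  mul := by
    intro m n hm hn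
    have hm' : (m : ℝ) ≠ 0 := by positivity
    have hn' : (n : ℝ) ≠ 0 := by positivity
    simp only [Nat.cast_mul]
    rw [map_mul, tw_mul hm' hn']
    ring
  norm_le := by
    intro n
    rw [norm_mul, norm_tw, mul_one]
    exact χ.norm_le_one _

theorem big_exp (k : ℕ) : ∃ L₁ : ℝ, ∀ L : ℝ, L₁ ≤ L → 2 + 2 * L ^ k ≤ Real.exp L := by
  have h1 : ∀ᶠ L : ℝ in atTop, ‖L ^ k‖ ≤ (1 / 4) * ‖Real.exp L‖ :=
    (Real.isLittleO_pow_exp_atTop (n := k)).def (by norm_num)
  have h2 : ∀ᶠ L : ℝ in atTop, (4 : ℝ) ≤ Real.exp L := Real.tendsto_exp_atTop.eventually_ge_atTop 4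
  obtain ⟨L₁, hL⟩ := (h1.and h2).exists_forall_of_atTop
  refine ⟨L₁, fun L h => ?_⟩
  obtain ⟨g1, g2⟩ := hL L h
  rw [Real.norm_eq_abs, Real.norm_eq_abs, abs_of_pos (Real.exp_pos L)] at g1
  have g3 := le_abs_self (L ^ k)
  linarith

theorem exp_rpow_mono {L η η' M : ℝ} (hL : 1 ≤ L) (h : η ≤ η') (hM : Real.exp (L ^ (1 - η)) ≤ M) :
    Real.exp (L ^ (1 - η')) ≤ M := by
  refine le_trans (Real.exp_le_exp.2 ?_) hM
  exact Real.rpow_le_rpow_of_exponent_le hL (by linarith)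

theorem ppr : S_PG → S_TBALL → S_TB2 → S_PPR := by
  intro hPG hT1 hT2
  obtain ⟨η₁, hη₁, hη₁', hT1⟩ := hT1
  obtain ⟨η₂, hη₂, hη₂', hT2⟩ := hT2
  obtain ⟨η, hη, h1, h2⟩ : ∃ η : ℝ, 0 < η ∧ η ≤ η₁ ∧ η ≤ η₂ :=
    ⟨min η₁ η₂, lt_min hη₁ hη₂, min_le_left _ _, min_le_right _ _⟩
  refine ⟨η / 64, by positivity, by linarith, fun A B K => ?_⟩
  obtain ⟨K₁, KU, L₁, hL₁, hPG⟩ := hPG η hη (by linarith) K
  obtain ⟨L₂, hL₂, hT1⟩ := hT1 (A + 1) B K₁
  obtain ⟨L₃, hL₃, hT2⟩ := hT2 (A + 1) B K₁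
  obtain ⟨L₄, hL₄⟩ := big_exp KU
  refine ⟨max (max L₁ L₂) (max L₃ L₄), le_max_of_le_left (le_max_of_le_left hL₁), ?_⟩
  intro L hL q χ t hχ hrad hBq hq ht N hN hN'
  have e1 : L₁ ≤ L := le_trans (le_trans (le_max_left _ _) (le_max_left _ _)) hL
  have e2 : L₂ ≤ L := le_trans (le_trans (le_max_right _ _) (le_max_left _ _)) hL
  have e3 : L₃ ≤ L := le_trans (le_trans (le_max_left _ _) (le_max_right _ _)) hL
  have e4 : L₄ ≤ L := le_trans (le_trans (le_max_right _ _) (le_max_right _ _)) hL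
  have hL2 : 2 ≤ L := hL₁.trans e1
  have hbig := hL₄ L e4
  have hLK : 0 ≤ L ^ KU := by positivity
  have hqL : 1 ≤ L ^ B := one_le_pow₀ (by linarith)
  have hq8 : (8 : ℝ) < q := by linarith
  have hq2 : 2 ≤ q := by
    have : 8 < q := by exact_mod_cast hq8
    omega
  have hq8r : 8 * rad q < q := by
    have : (8 : ℝ) * (rad q : ℝ) < q := by linarith
    exact_mod_cast this
  have hA1 : Real.exp (A * L) ≤ Real.exp (((A + 1 : ℕ) : ℝ) * L) := by
    apply Real.exp_le_exp.2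
    push_cast
    nlinarith
  have hA2 : Real.exp (A * L) * (2 + 2 * L ^ KU) ≤ Real.exp (((A + 1 : ℕ) : ℝ) * L) := by
    have g : Real.exp (((A + 1 : ℕ) : ℝ) * L) = Real.exp (A * L) * Real.exp L := by
      rw [← Real.exp_add]
      congr 1
      push_cast
      ring
    rw [g]
    exact mul_le_mul_of_nonneg_left hbig (Real.exp_pos _).le
  have hA0 : 1 ≤ Real.exp (A * L) := Real.one_le_exp (by positivity)
  have hA3 : L ^ KU ≤ Real.exp (A * L) * L ^ KU := le_mul_of_one_le_left hLK hA0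
  have hA4 : Real.exp (A * L) * (2 + 2 * L ^ KU) =
      2 * Real.exp (A * L) + 2 * (Real.exp (A * L) * L ^ KU) := by ring
  refine hPG L e1 (fun n : ℕ => χ (n : ZMod q) * tw t n) (cm_twist χ t) ?_ ?_ N hN hN'
  · intro u hu M hM
    have g := hT1 L e2 q χ (t + u) hq2 hχ hrad (hq.trans hA1) ?_ M
      (exp_rpow_mono (by linarith) h1 hM)
    · refine le_of_eq_of_le ?_ g
      congr 1
      refine Finset.sum_congr rfl fun m _ => ?_
      rw [mul_assoc, tw_mul_tw]
    · refine (abs_add_le t u).trans ?_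
      linarith
  · intro u hu M hM
    have g := hT2 L e3 q χ (t + t + u) hq8r hχ hrad (hq.trans hA1) ?_ M
      (exp_rpow_mono (by linarith) h2 hM)
    · refine le_of_eq_of_le ?_ g
      congr 1
      refine Finset.sum_congr rfl fun m _ => ?_
      rw [← tw_mul_tw (t + t) u, ← tw_mul_tw t t]
      ring
    · have g1 := abs_add_le (t + t) u
      have g2 := abs_add_le t t
      linarith

end Pool.Agent.H120.PP
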